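import Mathlib

/-!
# Graphs without large independent sets have many edges
-/

set_option autoImplicit false

open Finset
open scoped Classical

namespace Pool.Agent.X108.CH

/-- the pairs of distinct elements of `S` with the property `E` -/
noncomputable def PR {ι : Type*} (S : Finset ι) (E : ι → ι → Prop) : Finset (ι × ι) :=
  (S ×ˢ S).filter (fun p => p.1 ≠ p.2 ∧ E p.1 p.2)

theorem mem_PR {ι : Type*} {S : Finset ι} {E : ι → ι → Prop} {p : ι × ι} :
    p ∈ PR S E ↔ (p.1 ∈ S ∧ p.2 ∈ S) ∧ p.1 ≠ p.2 ∧ E p.1 p.2 := by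
  unfold PR
  rw [mem_filter, mem_product]

theorem pairs {ι : Type*} (S : Finset ι) (E : ι → ι → Prop) (hsymm : ∀ a b, E a b → E b a) {α : ℝ} (hα : 0 < α)
    (h : ∀ A ⊆ S, α ≤ A.card → ∃ a ∈ A, ∃ b ∈ A, a ≠ b ∧ E a b) (hn : 4 * α ≤ S.card) :
    (S.card : ℝ) ^ 2 / (8 * α) ≤ ((PR S E).card : ℝ) := by
  set n : ℝ := (S.card : ℝ) with hnd
  obtain ⟨D, hD⟩ : ∃ D : ℝ, D = n / (2 * α) - 1 := ⟨_, rfl⟩
  have hD0 : 0 ≤ D := by
    rw [hD, sub_nonneg, le_div_iff₀ (by positivity)]
    linarith
  obtain ⟨N, hN⟩ : ∃ N : ι → Finset ι, ∀ v, N v = S.filter (fun b => v ≠ b ∧ E v b) := ⟨_, fun _ => rfl⟩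
  obtain ⟨Low, hLow⟩ : ∃ Low : Finset ι, Low = S.filter (fun v => ((N v).card : ℝ) < D) := ⟨_, rfl⟩
  obtain ⟨Ind, hInd⟩ : ∃ Ind : Finset ι → Prop, ∀ I, Ind I ↔ ∀ a ∈ I, ∀ b ∈ I, a ≠ b → ¬ E a b :=
    ⟨_, fun _ => Iff.rfl⟩
  obtain ⟨I, hI, hmax⟩ := Finset.exists_max_image
    (Low.powerset.filter Ind) Finset.card ⟨∅, by rw [mem_filter, hInd]; simp⟩
  rw [mem_filter, mem_powerset, hInd] at hI
  have hIS : I ⊆ S := hI.1.trans (by rw [hLow]; exact filter_subset _ _)
  have hIc : (I.card : ℝ) < α := by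
    by_contra hcon
    push Not at hcon
    obtain ⟨a, ha, b, hb, hne, hE⟩ := h I hIS hcon
    exact hI.2 a ha b hb hne hE
  have hcov : Low ⊆ I.biUnion (fun w => insert w (N w)) := by
    intro v hv
    rw [mem_biUnion]
    by_contra hcon
    push Not at hcon
    have hvS : v ∈ S := by
      rw [hLow, mem_filter] at hv
      exact hv.1
    have hvI : v ∉ I := fun hvI => (hcon v hvI) (mem_insert_self _ _)
    have hind : ∀ w ∈ I, ¬ E w v := by
      intro w hw hE
      apply hcon w hw
      rw [mem_insert, hN, mem_filter]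
      right
      exact ⟨hvS, fun e => hvI (e ▸ hw), hE⟩
    have hins : insert v I ∈ Low.powerset.filter Ind := by
      rw [mem_filter, mem_powerset, hInd]
      refine ⟨insert_subset hv hI.1, ?_⟩
      intro a ha b hb hne
      rw [mem_insert] at ha hb
      rcases ha with rfl | ha <;> rcases hb with rfl | hb
      · exact absurd rfl hne
      · exact fun e => hind b hb (hsymm _ _ e)
      · exact hind a ha
      · exact hI.2 a ha b hb hne
    have := hmax _ hins
    rw [card_insert_of_notMem hvI] at this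
    omega
  have hLc : (Low.card : ℝ) ≤ n / 2 := by
    have h1 : (Low.card : ℝ) ≤ ∑ w ∈ I, ((insert w (N w)).card : ℝ) := by
      exact_mod_cast (card_le_card hcov).trans card_biUnion_le
    have h2 : ∑ w ∈ I, ((insert w (N w)).card : ℝ) ≤ ∑ w ∈ I, (1 + D) := by
      refine sum_le_sum fun w hw => ?_
      have h3 : ((insert w (N w)).card : ℝ) ≤ (N w).card + 1 := by exact_mod_cast card_insert_le _ _
      have h4 : ((N w).card : ℝ) < D := by
        have := hI.1 hw
        rw [hLow, mem_filter] at this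
        exact this.2
      linarith
    rw [sum_const, nsmul_eq_mul] at h2
    have h5 : (I.card : ℝ) * (1 + D) ≤ α * (1 + D) := by gcongr
    have h6 : α * (1 + D) = n / 2 := by
      rw [hD]
      field_simp
      ring
    linarith
  have hhigh : n / 2 ≤ ((S.filter (fun v => ¬ ((N v).card : ℝ) < D)).card : ℝ) := by
    have h1 := card_filter_add_card_filter_not (s := S) (fun v => ((N v).card : ℝ) < D)
    rw [← hLow] at h1
    have h2 : (Low.card : ℝ) + ((S.filter (fun v => ¬ ((N v).card : ℝ) < D)).card : ℝ) = n := by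
      rw [hnd]
      exact_mod_cast h1
    linarith
  have hcount : ((PR S E).card : ℝ) = ∑ v ∈ S, ((N v).card : ℝ) := by
    have h1 : (PR S E).card = ∑ v ∈ S, (N v).card := by
      unfold PR
      rw [card_filter, sum_product]
      refine sum_congr rfl fun v _ => ?_
      rw [hN, card_filter]
    rw [h1]
    push_cast
    rfl
  have hlow2 : ((S.filter (fun v => ¬ ((N v).card : ℝ) < D)).card : ℝ) * D ≤ ∑ v ∈ S, ((N v).card : ℝ) := by
    calc ((S.filter (fun v => ¬ ((N v).card : ℝ) < D)).card : ℝ) * D =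
          ∑ v ∈ S.filter (fun v => ¬ ((N v).card : ℝ) < D), D := by rw [sum_const, nsmul_eq_mul]
      _ ≤ ∑ v ∈ S.filter (fun v => ¬ ((N v).card : ℝ) < D), ((N v).card : ℝ) := by
          refine sum_le_sum fun v hv => ?_
          rw [mem_filter] at hv
          exact not_lt.1 hv.2
      _ ≤ _ := by
          apply sum_le_sum_of_subset_of_nonneg (filter_subset _ _)
          intro v _ _
          exact Nat.cast_nonneg _
  rw [hcount]
  have h7 : n / 2 * D ≤ ((S.filter (fun v => ¬ ((N v).card : ℝ) < D)).card : ℝ) * D :=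
    mul_le_mul_of_nonneg_right hhigh hD0
  have h8 : n ^ 2 / (8 * α) ≤ n / 2 * D := by
    rw [hD, div_le_iff₀ (by positivity)]
    have h9 : n / 2 * (n / (2 * α) - 1) * (8 * α) = 2 * n ^ 2 - 4 * α * n := by
      field_simp
      ring
    rw [h9]
    have h10 : 0 ≤ n := Nat.cast_nonneg _
    nlinarith
  linarith

end Pool.Agent.X108.CH
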