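import Pool.Agent.X108.CH.Expl
import Pool.Agent.X108.CH.Pairs

/-!
# The number of the quotients with extreme central values
-/

set_option autoImplicit false

open Finset Filter
open scoped Classical

namespace Pool.Agent.X108.CH

open Pool.Agent.X24.Coset hiding core2 core3 explicit

/-- the two characters have a quotient with a central value of size at least `V` -/
def EE {q : ℕ} [NeZero q] (V : ℝ) (χ χ' : DirichletCharacter ℂ q) : Prop :=
  χ ≠ χ' ∧ V ≤ ‖DirichletCharacter.LFunction (χ * χ'⁻¹) (1 / 2)‖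

section
variable {q : ℕ} [hq : Fact q.Prime]

theorem inv_norm (χ : DirichletCharacter ℂ q) (h : χ ≠ 1) :
    ‖DirichletCharacter.LFunction χ⁻¹ (1 / 2)‖ = ‖DirichletCharacter.LFunction χ (1 / 2)‖ := by
  have h' : χ⁻¹ ≠ 1 := by rwa [ne_eq, inv_eq_one]
  rw [LFunction_half _ h', LFunction_half _ h, ← norm_star (∑ a ∈ Finset.Ico 1 q, χ (a : ZMod q) * (wt q a : ℂ))]
  congr 1
  rw [star_sum]
  refine sum_congr rfl fun a _ => ?_
  rw [star_mul', star_char, MulChar.inv_apply, Ring.inverse_eq_inv]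
  congr 1
  exact (Complex.conj_ofReal _).symm

theorem EE_symm {V : ℝ} (χ χ' : DirichletCharacter ℂ q) (h : EE V χ χ') : EE V χ' χ := by
  refine ⟨h.1.symm, ?_⟩
  have h1 : χ' * χ⁻¹ = (χ * χ'⁻¹)⁻¹ := by rw [mul_inv_rev, inv_inv]
  rw [h1, inv_norm]
  · exact h.2
  · intro e
    exact h.1 (mul_inv_eq_one.mp e)

end

/-- the size of the extreme values -/
noncomputable def VV (ε : ℝ) (q : ℕ) : ℝ :=
  Real.exp (√ε / 2000 * √(Real.log q * Real.log (Real.log (Real.log q)) / Real.log (Real.log q)))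

theorem card_le (q : ℕ) [NeZero q] (S : Finset (DirichletCharacter ℂ q)) : (S.card : ℝ) ≤ q := by
  haveI : Fintype (DirichletCharacter ℂ q) := Fintype.ofFinite _
  have h1 : S.card ≤ q := by
    calc S.card ≤ Fintype.card (DirichletCharacter ℂ q) := card_le_univ S
      _ = q.totient := by
        rw [← Nat.card_eq_fintype_card]
        exact DirichletCharacter.card_eq_totient_of_hasEnoughRootsOfUnity ℂ q
      _ ≤ q := Nat.totient_le q
  exact_mod_cast h1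

theorem count (ε : ℝ) (hε : 0 < ε) : ∃ q₀ : ℕ, ∀ q : ℕ, q₀ ≤ q → q.Prime →
    ∀ [NeZero q], ∀ S : Finset (DirichletCharacter ℂ q), (q : ℝ) ^ (1 / 2 + ε) ≤ (S.card : ℝ) →
    2 * ((S.card : ℝ) ^ 2 * (q : ℝ) ^ (-(1 / 2) - ε)) ≤ ((PR S (EE (VV ε q))).card : ℝ) := by
  rcases le_or_gt ε (1 / 2) with h12 | h12
  · obtain ⟨q₀, h⟩ := extreme_sets (ε / 2) (by positivity)
    have hlim : ∀ᶠ q : ℕ in atTop, (16 : ℝ) ≤ (q : ℝ) ^ (ε / 2) :=
      ((tendsto_rpow_atTop (by positivity : 0 < ε / 2)).comp tendsto_natCast_atTop_atTop).eventually_ge_atTop 16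
    obtain ⟨q₁, hq₁⟩ := eventually_atTop.1 hlim
    refine ⟨max q₀ q₁, fun q hq hp _ S hS => ?_⟩
    haveI : Fact q.Prime := ⟨hp⟩
    have hqa := (le_max_left _ _).trans hq
    have h16 := hq₁ q ((le_max_right _ _).trans hq)
    have hq0 : (0 : ℝ) < q := by exact_mod_cast hp.pos
    have hα : (0 : ℝ) < (q : ℝ) ^ (1 / 2 + ε / 2) := by positivity
    have hsplit : (q : ℝ) ^ (1 / 2 + ε) = (q : ℝ) ^ (1 / 2 + ε / 2) * (q : ℝ) ^ (ε / 2) := by
      rw [← Real.rpow_add hq0]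
      congr 1
      ring
    have hV : VV ε q ≤ Real.exp (√(min (ε / 2 / 20) (1 / 64) / 384) / 12 *
        √(Real.log q * Real.log (Real.log (Real.log q)) / Real.log (Real.log q))) := by
      unfold VV
      refine Real.exp_le_exp.mpr (mul_le_mul_of_nonneg_right ?_ (Real.sqrt_nonneg _))
      have h1 : ε / 64 ≤ min (ε / 2 / 20) (1 / 64) := le_min (by linarith) (by linarith)
      have h2 : √ε / 2000 ≤ √(ε / 64 / 384) / 12 := by
        have h3 : (√ε / 2000) ^ 2 ≤ (√(ε / 64 / 384) / 12) ^ 2 := by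
          rw [div_pow, div_pow, Real.sq_sqrt hε.le, Real.sq_sqrt (by positivity)]
          linarith
        exact (pow_le_pow_iff_left₀ (by positivity) (by positivity) (by norm_num)).mp h3
      refine h2.trans ?_
      have h4 : √(ε / 64 / 384) ≤ √(min (ε / 2 / 20) (1 / 64) / 384) := Real.sqrt_le_sqrt (by linarith)
      linarith
    have hp := pairs S (EE (VV ε q)) EE_symm hα (fun A _ hA => by
      obtain ⟨χ, hχ, χ', hχ', hne, hle⟩ := h q hqa hp A hA
      exact ⟨χ, hχ, χ', hχ', hne, hne, hV.trans hle⟩) (by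
        rw [hsplit] at hS
        refine le_trans ?_ hS
        nlinarith)
    refine le_trans ?_ hp
    rw [le_div_iff₀ (by positivity)]
    have e1 : (q : ℝ) ^ (-(1 / 2) - ε) * (q : ℝ) ^ (1 / 2 + ε) = 1 := by
      rw [← Real.rpow_add hq0]
      simp
    have e2 : (q : ℝ) ^ (-(1 / 2) - ε) * (16 * (q : ℝ) ^ (1 / 2 + ε / 2)) ≤ 1 := by
      have h0 : 0 < (q : ℝ) ^ (-(1 / 2) - ε) := by positivity
      calc (q : ℝ) ^ (-(1 / 2) - ε) * (16 * (q : ℝ) ^ (1 / 2 + ε / 2)) ≤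
            (q : ℝ) ^ (-(1 / 2) - ε) * ((q : ℝ) ^ (1 / 2 + ε / 2) * (q : ℝ) ^ (ε / 2)) :=
            mul_le_mul_of_nonneg_left (by nlinarith) h0.le
        _ = 1 := by rw [← hsplit]; exact e1
    have e3 : 0 ≤ (S.card : ℝ) ^ 2 := by positivity
    calc 2 * ((S.card : ℝ) ^ 2 * (q : ℝ) ^ (-(1 / 2) - ε)) * (8 * (q : ℝ) ^ (1 / 2 + ε / 2)) =
          (S.card : ℝ) ^ 2 * ((q : ℝ) ^ (-(1 / 2) - ε) * (16 * (q : ℝ) ^ (1 / 2 + ε / 2))) := by ring
      _ ≤ (S.card : ℝ) ^ 2 * 1 := by gcongr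
      _ = _ := mul_one _
  · refine ⟨0, fun q _ hp _ S hS => ?_⟩
    exfalso
    have h1 := card_le q S
    have h2 : (1 : ℝ) < q := by exact_mod_cast hp.one_lt
    have h3 : (q : ℝ) ^ (1 : ℝ) < (q : ℝ) ^ (1 / 2 + ε) := Real.rpow_lt_rpow_of_exponent_lt h2 (by linarith)
    rw [Real.rpow_one] at h3
    linarith

/-- the characters of a group -/
theorem group_count (ε : ℝ) (hε : 0 < ε) : ∃ q₀ : ℕ, ∀ q : ℕ, q₀ ≤ q → q.Prime →
    ∀ [NeZero q], ∀ H : Subgroup (DirichletCharacter ℂ q), (q : ℝ) ^ (1 / 2 + ε) ≤ (Nat.card H : ℝ) →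
    (Nat.card H : ℝ) * (q : ℝ) ^ (-(1 / 2) - ε) ≤
      (({χ : DirichletCharacter ℂ q | χ ∈ H ∧ χ ≠ 1 ∧ VV ε q ≤ ‖DirichletCharacter.LFunction χ (1 / 2)‖}).ncard : ℝ) := by
  obtain ⟨q₀, h⟩ := count ε hε
  refine ⟨q₀, fun q hq hp _ H hH => ?_⟩
  haveI : Fact q.Prime := ⟨hp⟩
  obtain ⟨S, hSm⟩ : ∃ S : Finset (DirichletCharacter ℂ q), ∀ χ, χ ∈ S ↔ χ ∈ H :=
    ⟨(Set.toFinite (H : Set (DirichletCharacter ℂ q))).toFinset, fun χ => by
      rw [Set.Finite.mem_toFinset, SetLike.mem_coe]⟩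
  have hSc : (S.card : ℝ) = Nat.card H := by
    have h1 : S.card = Nat.card H := by
      have h2 : (S : Set (DirichletCharacter ℂ q)) = (H : Set (DirichletCharacter ℂ q)) := by
        ext χ
        rw [Finset.mem_coe, SetLike.mem_coe]
        exact hSm χ
      rw [← Set.ncard_coe_finset, h2]
      rfl
    exact_mod_cast h1
  have h1 := h q hq hp S (by rw [hSc]; exact hH)
  rw [hSc] at h1
  obtain ⟨R, hR⟩ : ∃ R : Finset (DirichletCharacter ℂ q), ∀ χ, χ ∈ R ↔ χ ∈ H ∧ χ ≠ 1 ∧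
      VV ε q ≤ ‖DirichletCharacter.LFunction χ (1 / 2)‖ :=
    ⟨(Set.toFinite {χ : DirichletCharacter ℂ q | χ ∈ H ∧ χ ≠ 1 ∧
      VV ε q ≤ ‖DirichletCharacter.LFunction χ (1 / 2)‖}).toFinset, fun χ => by
      rw [Set.Finite.mem_toFinset]
      rfl⟩
  have hRc : (({χ : DirichletCharacter ℂ q | χ ∈ H ∧ χ ≠ 1 ∧
      VV ε q ≤ ‖DirichletCharacter.LFunction χ (1 / 2)‖}).ncard : ℝ) = R.card := by
    have : {χ : DirichletCharacter ℂ q | χ ∈ H ∧ χ ≠ 1 ∧
      VV ε q ≤ ‖DirichletCharacter.LFunction χ (1 / 2)‖} = (R : Set (DirichletCharacter ℂ q)) := by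
      ext χ
      rw [Finset.mem_coe, hR]
      rfl
    rw [this, Set.ncard_coe_finset]
  rw [hRc]
  have h2 : (PR S (EE (VV ε q))).card ≤ (R ×ˢ S).card := by
    refine card_le_card_of_injOn (fun p => (p.1 * p.2⁻¹, p.2)) ?_ ?_
    · intro p hp
      rw [mem_coe] at hp ⊢
      rw [mem_PR] at hp
      rw [mem_product, hR]
      refine ⟨⟨H.mul_mem ((hSm _).1 hp.1.1) (H.inv_mem ((hSm _).1 hp.1.2)), ?_, hp.2.2.2⟩, hp.1.2⟩
      intro e
      exact hp.2.1 (mul_inv_eq_one.mp e)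
    · intro p _ p' _ e
      rw [Prod.mk.injEq] at e
      have e2 := e.2
      have e1 := e.1
      rw [e2] at e1
      exact Prod.ext (mul_right_cancel e1) e2
  rw [card_product] at h2
  have h3 : ((PR S (EE (VV ε q))).card : ℝ) ≤ R.card * Nat.card H := by
    rw [← hSc]
    exact_mod_cast h2
  have hH0 : (0 : ℝ) < Nat.card H := by exact_mod_cast Nat.card_pos
  have hq0 : (0 : ℝ) < q := by exact_mod_cast hp.pos
  have h4 : 0 ≤ (Nat.card H : ℝ) * (q : ℝ) ^ (-(1 / 2) - ε) := by positivity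
  have h5 : ((Nat.card H : ℝ) * (q : ℝ) ^ (-(1 / 2) - ε)) * Nat.card H ≤ R.card * Nat.card H := by nlinarith
  exact le_of_mul_le_mul_right h5 hH0

/-- the powers of a character -/
theorem power_count (ε : ℝ) (hε : 0 < ε) : ∃ q₀ : ℕ, ∀ q : ℕ, q₀ ≤ q → q.Prime →
    ∀ [NeZero q], ∀ (ψ : DirichletCharacter ℂ q) (J : ℕ), J ≤ orderOf ψ → (q : ℝ) ^ (1 / 2 + ε) ≤ (J : ℝ) →
    (J : ℝ) * (q : ℝ) ^ (-(1 / 2) - ε) ≤
      (((Icc 1 (J - 1)).filter (fun h => VV ε q ≤ ‖DirichletCharacter.LFunction (ψ ^ h) (1 / 2)‖)).card : ℝ) := by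
  obtain ⟨q₀, h⟩ := count ε hε
  refine ⟨q₀, fun q hq hp _ ψ J hJ hJq => ?_⟩
  haveI : Fact q.Prime := ⟨hp⟩
  have hinj : Set.InjOn (fun j : ℕ => ψ ^ j) (range J : Set ℕ) := by
    intro i hi j hj hij
    rw [mem_coe, mem_range] at hi hj
    exact pow_injOn_Iio_orderOf (Set.mem_Iio.2 (hi.trans_le hJ)) (Set.mem_Iio.2 (hj.trans_le hJ)) hij
  obtain ⟨S, hS⟩ : ∃ S : Finset (DirichletCharacter ℂ q), S = (range J).image (fun j : ℕ => ψ ^ j) := ⟨_, rfl⟩
  have hSc : S.card = J := by rw [hS, card_image_of_injOn hinj, card_range]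
  have h1 := h q hq hp S (by rw [hSc]; exact hJq)
  rw [hSc] at h1
  obtain ⟨R, hR⟩ : ∃ R : Finset ℕ, R = (Icc 1 (J - 1)).filter (fun h => VV ε q ≤
    ‖DirichletCharacter.LFunction (ψ ^ h) (1 / 2)‖) := ⟨_, rfl⟩
  rw [← hR]
  obtain ⟨P, hP⟩ : ∃ P : Finset (ℕ × ℕ), P = (range J ×ˢ range J).filter (fun p => EE (VV ε q) (ψ ^ p.1) (ψ ^ p.2)) :=
    ⟨_, rfl⟩
  have h2 : (PR S (EE (VV ε q))).card ≤ P.card := by
    refine (card_le_card ?_).trans (card_image_le (s := P) (f := fun p => (ψ ^ p.1, ψ ^ p.2)))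
    intro p hp
    rw [mem_PR, hS, mem_image, mem_image] at hp
    obtain ⟨⟨⟨i, hi, hi'⟩, ⟨j, hj, hj'⟩⟩, -, hE⟩ := hp
    rw [mem_image]
    refine ⟨(i, j), ?_, Prod.ext hi' hj'⟩
    rw [hP, mem_filter, mem_product]
    refine ⟨⟨hi, hj⟩, ?_⟩
    have hi'' : ψ ^ i = p.1 := hi'
    have hj'' : ψ ^ j = p.2 := hj'
    show EE (VV ε q) (ψ ^ i) (ψ ^ j)
    rw [hi'', hj'']
    exact hE
  have h3 : P.card ≤ ((R ×ˢ range J) ×ˢ (Finset.univ : Finset Bool)).card := by
    refine card_le_card_of_injOn (fun p => ((max p.1 p.2 - min p.1 p.2, min p.1 p.2), decide (p.1 < p.2))) ?_ ?_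
    · intro p hp
      rw [mem_coe] at hp ⊢
      rw [hP, mem_filter, mem_product, mem_range, mem_range] at hp
      obtain ⟨⟨hi, hj⟩, hne, hV⟩ := hp
      have hne' : p.1 ≠ p.2 := fun e => hne (by rw [e])
      rw [mem_product, mem_product, mem_range]
      refine ⟨⟨?_, ?_⟩, mem_univ _⟩
      · show max p.1 p.2 - min p.1 p.2 ∈ R
        rw [hR, mem_filter, mem_Icc]
        rcases lt_or_gt_of_ne hne' with hlt | hlt
        · rw [max_eq_right hlt.le, min_eq_left hlt.le]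
          refine ⟨⟨by omega, by omega⟩, ?_⟩
          have e0 : ψ ^ p.2 = ψ ^ (p.2 - p.1) * ψ ^ p.1 := by
            rw [← pow_add]
            congr 1
            omega
          have e1 : ψ ^ p.1 * (ψ ^ p.2)⁻¹ = (ψ ^ (p.2 - p.1))⁻¹ := by
            rw [e0, mul_inv_rev, mul_inv_cancel_left]
          rw [e1, inv_norm] at hV
          · exact hV
          · intro e
            apply hne
            rw [e0, e, one_mul]
        · rw [max_eq_left hlt.le, min_eq_right hlt.le]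
          refine ⟨⟨by omega, by omega⟩, ?_⟩
          have e1 : ψ ^ p.1 * (ψ ^ p.2)⁻¹ = ψ ^ (p.1 - p.2) := by
            rw [mul_inv_eq_iff_eq_mul, ← pow_add]
            congr 1
            omega
          rw [e1] at hV
          exact hV
      · show min p.1 p.2 < J
        exact lt_of_le_of_lt (min_le_left _ _) hi
    · intro p _ p' _ e
      simp only [Prod.mk.injEq] at e
      obtain ⟨⟨e1, e2⟩, e3⟩ := e
      have e4 : (p.1 < p.2) ↔ (p'.1 < p'.2) := by simpa using e3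
      rcases lt_or_ge p.1 p.2 with hlt | hge
      · have hlt' := e4.1 hlt
        rw [max_eq_right hlt.le, min_eq_left hlt.le, max_eq_right hlt'.le, min_eq_left hlt'.le] at e1
        rw [min_eq_left hlt.le, min_eq_left hlt'.le] at e2
        exact Prod.ext e2 (by omega)
      · have hge' : p'.2 ≤ p'.1 := by
          by_contra hcon
          exact absurd (e4.2 (not_le.1 hcon)) (not_lt.2 hge)
        rw [max_eq_left hge, min_eq_right hge, max_eq_left hge', min_eq_right hge'] at e1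
        rw [min_eq_right hge, min_eq_right hge'] at e2
        exact Prod.ext (by omega) e2
  rw [card_product, card_product, card_range] at h3
  have h4 : (Finset.univ : Finset Bool).card = 2 := rfl
  rw [h4] at h3
  have h5 : ((PR S (EE (VV ε q))).card : ℝ) ≤ R.card * J * 2 := by exact_mod_cast h2.trans h3
  have hq0 : (0 : ℝ) < q := by exact_mod_cast hp.pos
  have hJ0 : (0 : ℝ) < J := lt_of_lt_of_le (by positivity) hJq
  have h6 : ((J : ℝ) * (q : ℝ) ^ (-(1 / 2) - ε)) * (J * 2) ≤ R.card * (J * 2) := by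
    calc ((J : ℝ) * (q : ℝ) ^ (-(1 / 2) - ε)) * (J * 2) = 2 * ((J : ℝ) ^ 2 * (q : ℝ) ^ (-(1 / 2) - ε)) := by ring
      _ ≤ _ := h1
      _ ≤ _ := h5
      _ = _ := by ring
  exact le_of_mul_le_mul_right h6 (by positivity)

end Pool.Agent.X108.CH
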